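import Pool.Agent.Q155.HK.Defs

/-!
# Averages over finite orbits: projections and classes
-/

namespace Pool.Agent.Q155.HK

open Finset Pool.Agent.Q28.EQ

/-- averages over the classes of a partition -/
lemma avg_avg {α : Type*} {S : Set α} (hS : S.Finite) (cl : α → Set α)
    (h1 : ∀ y ∈ S, cl y ⊆ S) (h2 : ∀ y ∈ S, y ∈ cl y)
    (h3 : ∀ y ∈ S, ∀ z ∈ cl y, cl z = cl y) (f : α → ℝ) :
    avg S (fun y => avg (cl y) f) = avg S f := by
  classical
  set T := hS.toFinset with hT
  have hTm : ∀ y, y ∈ T ↔ y ∈ S := fun y => Set.Finite.mem_toFinset hS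
  have hcf : ∀ y ∈ S, (cl y).Finite := fun y hy => hS.subset (h1 y hy)
  have hsym : ∀ y ∈ S, ∀ z ∈ S, (z ∈ cl y ↔ y ∈ cl z) := by
    intro y hy z hz
    constructor
    · intro h4; rw [h3 y hy z h4]; exact h2 y hy
    · intro h4; rw [h3 z hz y h4]; exact h2 z hz
  have key : ∑ y ∈ T, avg (cl y) f = ∑ z ∈ T, f z := by
    have e1 : ∀ y ∈ T, avg (cl y) f =
        ∑ z ∈ T, if z ∈ cl y then f z / ((cl y).ncard : ℝ) else 0 := by
      intro y hy
      have hy' := (hTm y).mp hy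
      rw [avg_eq (hcf y hy'), ← Set.ncard_eq_toFinset_card (cl y) (hcf y hy'), Finset.sum_div,
        ← Finset.sum_filter]
      refine Finset.sum_congr ?_ fun _ _ => rfl
      ext z
      rw [Set.Finite.mem_toFinset, Finset.mem_filter, hTm]
      exact ⟨fun hz => ⟨h1 y hy' hz, hz⟩, fun hz => hz.2⟩
    rw [Finset.sum_congr rfl e1, Finset.sum_comm]
    refine Finset.sum_congr rfl fun z hz => ?_
    have hz' := (hTm z).mp hz
    have e2 : ∀ y ∈ T, (if z ∈ cl y then f z / ((cl y).ncard : ℝ) else 0) =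
        if y ∈ cl z then f z / ((cl z).ncard : ℝ) else 0 := by
      intro y hy
      have hy' := (hTm y).mp hy
      by_cases h4 : z ∈ cl y
      · rw [if_pos h4, if_pos ((hsym y hy' z hz').mp h4), h3 y hy' z h4]
      · rw [if_neg h4, if_neg fun h5 => h4 ((hsym y hy' z hz').mpr h5)]
    rw [Finset.sum_congr rfl e2, ← Finset.sum_filter, Finset.sum_const, nsmul_eq_mul]
    have e3 : (T.filter fun y => y ∈ cl z) = (hcf z hz').toFinset := by
      ext y
      rw [Set.Finite.mem_toFinset, Finset.mem_filter, hTm]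
      exact ⟨fun hy => hy.2, fun hy => ⟨h1 z hz' hy, hy⟩⟩
    rw [e3, ← Set.ncard_eq_toFinset_card (cl z) (hcf z hz')]
    have e4 : ((cl z).ncard : ℝ) ≠ 0 := by
      have : 0 < (cl z).ncard := (Set.ncard_pos (hcf z hz')).mpr ⟨z, h2 z hz'⟩
      exact_mod_cast this.ne'
    field_simp
  rw [avg_eq hS, avg_eq hS, ← hT, key]

lemma avg_congr {α : Type*} {S : Set α} (hS : S.Finite) {f g : α → ℝ} (h : ∀ a ∈ S, f a = g a) :
    avg S f = avg S g := by
  rw [avg_eq hS, avg_eq hS]
  congr 1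
  exact Finset.sum_congr rfl fun a ha => h a ((Set.Finite.mem_toFinset hS).mp ha)

lemma avg_const {α : Type*} {S : Set α} (hS : S.Finite) (hne : S.Nonempty) (c : ℝ) :
    avg S (fun _ => c) = c := by
  rw [avg_eq hS, Finset.sum_const, nsmul_eq_mul]
  have : (hS.toFinset.card : ℝ) ≠ 0 := by
    have h1 : hS.toFinset.Nonempty := by simpa using hne
    exact_mod_cast h1.card_pos.ne'
  field_simp

lemma avg_mono {α : Type*} {S : Set α} (hS : S.Finite) {f g : α → ℝ} (h : ∀ a ∈ S, f a ≤ g a) :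
    avg S f ≤ avg S g := by
  rw [avg_eq hS, avg_eq hS]
  exact div_le_div_of_nonneg_right
    (Finset.sum_le_sum fun a ha => h a ((Set.Finite.mem_toFinset hS).mp ha)) (Nat.cast_nonneg _)

lemma avg_add {α : Type*} {S : Set α} (hS : S.Finite) (f g : α → ℝ) :
    avg S (fun a => f a + g a) = avg S f + avg S g := by
  rw [avg_eq hS, avg_eq hS, avg_eq hS, Finset.sum_add_distrib, add_div]

lemma avg_sub {α : Type*} {S : Set α} (hS : S.Finite) (f g : α → ℝ) :
    avg S (fun a => f a - g a) = avg S f - avg S g := by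
  rw [avg_eq hS, avg_eq hS, avg_eq hS, Finset.sum_sub_distrib, sub_div]

lemma avg_mul {α : Type*} {S : Set α} (hS : S.Finite) (c : ℝ) (f : α → ℝ) :
    avg S (fun a => c * f a) = c * avg S f := by
  rw [avg_eq hS, avg_eq hS, ← Finset.mul_sum, mul_div_assoc]

lemma abs_avg_le {α : Type*} {S : Set α} (hS : S.Finite) (f : α → ℝ) :
    |avg S f| ≤ avg S fun a => |f a| := by
  rw [avg_eq hS, avg_eq hS, abs_div, abs_of_nonneg (Nat.cast_nonneg (hS.toFinset.card) : (0:ℝ) ≤ _)]
  exact div_le_div_of_nonneg_right (Finset.abs_sum_le_sum_abs _ _) (Nat.cast_nonneg _)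

/-- the main estimate: replacing one factor by its mean value -/
lemma avg_peel {α : Type*} {S : Set α} (hS : S.Finite) (hne : S.Nonempty) (cl : α → Set α)
    (h1 : ∀ y ∈ S, cl y ⊆ S) (h2 : ∀ y ∈ S, y ∈ cl y)
    (h3 : ∀ y ∈ S, ∀ z ∈ cl y, cl z = cl y) (F φ : α → ℝ) (hF : ∀ y ∈ S, ∀ z ∈ cl y, F z = F y)
    (c M ε : ℝ) (bad : Set α) (hbad : avg S (bad.indicator fun _ => 1) ≤ ε)
    (hgood : ∀ y ∈ S, y ∉ bad → |avg (cl y) φ - c| ≤ ε) (hM : 0 ≤ M) (hε : 0 ≤ ε)
    (b1 : ∀ y, |F y| ≤ M) (b2 : ∀ y, |φ y| ≤ M) (b3 : |c| ≤ M) :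
    |avg S (fun y => F y * φ y) - avg S F * c| ≤ M * ε + 2 * M * M * ε := by
  have hcf : ∀ y ∈ S, (cl y).Finite := fun y hy => hS.subset (h1 y hy)
  have e1 : avg S (fun y => F y * φ y) = avg S (fun y => F y * avg (cl y) φ) := by
    rw [← avg_avg hS cl h1 h2 h3 (fun y => F y * φ y)]
    refine avg_congr hS fun y hy => ?_
    rw [← avg_mul (hcf y hy)]
    exact avg_congr (hcf y hy) fun z hz => by rw [hF y hy z hz]
  have e2 : avg S F * c = avg S (fun y => F y * c) := by
    rw [mul_comm, ← avg_mul hS]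
    exact avg_congr hS fun y _ => mul_comm _ _
  rw [e1, e2, ← avg_sub hS]
  refine (abs_avg_le hS _).trans ?_
  have e3 : avg S (fun y => M * ε + 2 * M * M * bad.indicator (fun _ => 1) y) ≤
      M * ε + 2 * M * M * ε := by
    rw [avg_add hS, avg_const hS hne, avg_mul hS]
    have : 0 ≤ 2 * M * M := by positivity
    linarith [mul_le_mul_of_nonneg_left hbad this]
  refine le_trans (avg_mono hS fun y hy => ?_) e3
  rw [← mul_sub, abs_mul]
  by_cases hy2 : y ∈ bad
  · rw [Set.indicator_of_mem hy2]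
    have h4 : |avg (cl y) φ| ≤ M := by
      refine (abs_avg_le (hcf y hy) _).trans ((avg_mono (hcf y hy) fun z _ => b2 z).trans ?_)
      rw [avg_const (hcf y hy) ⟨y, h2 y hy⟩]
    have h5 : |avg (cl y) φ - c| ≤ 2 * M := by
      refine (abs_sub _ _).trans ?_
      linarith
    have h6 : |F y| * |avg (cl y) φ - c| ≤ M * (2 * M) :=
      mul_le_mul (b1 y) h5 (abs_nonneg _) hM
    have h7 : 0 ≤ M * ε := by positivity
    nlinarith
  · rw [Set.indicator_of_notMem hy2]
    have h6 : |F y| * |avg (cl y) φ - c| ≤ M * ε :=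
      mul_le_mul (b1 y) (hgood y hy hy2) (abs_nonneg _) hM
    linarith

variable {G : Type} [Group G] {GF : Subgroup G}

/-- averages over the image of an orbit under an equivariant map -/
lemma avg_proj {P Q : Type*} [MulAction GF P] [MulAction GF Q] (π : P → Q)
    (hπ : ∀ (g : GF) x, π (g • x) = g • π x) (U : Subgroup G) (x : P)
    (hfin : (orb GF U x).Finite) (h : Q → ℝ) :
    avg (orb GF U x) (fun z => h (π z)) = avg (orb GF U (π x)) h := by
  classical
  have himg : orb GF U (π x) = π '' orb GF U x := by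
    ext y
    constructor
    · rintro ⟨g, hg, rfl⟩
      exact ⟨g • x, ⟨g, hg, rfl⟩, hπ g x⟩
    · rintro ⟨_, ⟨g, hg, rfl⟩, rfl⟩
      exact ⟨g, hg, (hπ g x).symm⟩
  have hfin2 : (orb GF U (π x)).Finite := by rw [himg]; exact hfin.image π
  set S := hfin.toFinset with hS
  set T := hfin2.toFinset with hT
  have hmS : ∀ z, z ∈ S ↔ z ∈ orb GF U x := fun z => Set.Finite.mem_toFinset hfin
  have hmT : ∀ z, z ∈ T ↔ z ∈ orb GF U (π x) := fun z => Set.Finite.mem_toFinset hfin2
  have hmaps : ∀ z ∈ S, π z ∈ T := by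
    intro z hz
    rw [hmT, himg]
    exact ⟨z, (hmS z).mp hz, rfl⟩
  -- the fibres have the same number of elements
  have hfib : ∀ a ∈ T, (S.filter fun z => π z = a).card = (S.filter fun z => π z = π x).card := by
    intro a ha
    obtain ⟨g, hg, rfl⟩ := (hmT a).mp ha
    symm
    refine Finset.card_bij (fun z _ => g • z) ?_ ?_ ?_
    · intro z hz
      obtain ⟨hz1, hz2⟩ := Finset.mem_filter.mp hz
      obtain ⟨k, hk, rfl⟩ := (hmS z).mp hz1
      refine Finset.mem_filter.mpr ⟨(hmS _).mpr ⟨g * k, U.mul_mem hg hk, mul_smul _ _ _⟩, ?_⟩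
      rw [hπ, hz2]
    · intro z _ w _ h
      exact MulAction.injective g h
    · intro w hw
      obtain ⟨hw1, hw2⟩ := Finset.mem_filter.mp hw
      obtain ⟨k, hk, rfl⟩ := (hmS w).mp hw1
      refine ⟨g⁻¹ • (k • x), Finset.mem_filter.mpr ⟨(hmS _).mpr ⟨g⁻¹ * k,
        U.mul_mem (by simpa using U.inv_mem hg) hk, mul_smul _ _ _⟩, ?_⟩, smul_inv_smul _ _⟩
      rw [hπ, hw2, inv_smul_smul]
  set c := (S.filter fun z => π z = π x).card with hc
  have hc0 : (c : ℝ) ≠ 0 := by
    have : x ∈ S.filter fun z => π z = π x :=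
      Finset.mem_filter.mpr ⟨(hmS x).mpr ⟨1, U.one_mem, one_smul _ _⟩, rfl⟩
    have : 0 < c := Finset.card_pos.mpr ⟨x, this⟩
    exact_mod_cast this.ne'
  have hcard : (S.card : ℝ) = T.card * c := by
    rw [Finset.card_eq_sum_card_fiberwise hmaps, Finset.sum_congr rfl hfib, Finset.sum_const,
      smul_eq_mul]
    push_cast; ring
  have hsum : ∑ z ∈ S, h (π z) = (∑ a ∈ T, h a) * c := by
    rw [← Finset.sum_fiberwise_of_maps_to hmaps, Finset.sum_mul]
    refine Finset.sum_congr rfl fun a ha => ?_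
    rw [Finset.sum_congr rfl (g := fun _ => h a) fun z hz => by rw [(Finset.mem_filter.mp hz).2],
      Finset.sum_const, hfib a ha, nsmul_eq_mul, mul_comm]
  rw [avg_eq hfin, avg_eq hfin2, ← hS, ← hT, hsum, hcard]
  exact mul_div_mul_right _ _ hc0

end Pool.Agent.Q155.HK
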