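import Pool.Agent.Q155.HK.Step
import Pool.Agent.Q155.HK.Dens

/-!
# From products of functions to all continuous functions with compact support
-/

namespace Pool.Agent.Q155.HK

open Filter Topology MeasureTheory Pool.Agent.Q28.EQ

variable {G : Type} [Group G] {GF : Subgroup G}

/-- weak convergence follows from the convergence for products of functions of one coordinate -/
lemma conv_core {κ : Type} [Fintype κ] (Yk : κ → CMCurve G GF) (xk : ℕ → ∀ k, (Yk k).P)
    (hfin : ∀ i, (orb GF ⊤ (xk i)).Finite) (l : Filter ℕ)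
    (hprod : ∀ g : ∀ k, (Yk k).Y → ℝ, (∀ k, Continuous (g k) ∧ HasCompactSupport (g k)) →
      Tendsto (fun i => avg (orb GF ⊤ (xk i)) fun y => ∏ k, g k ((Yk k).val (y k))) l
        (𝓝 (∏ k, ∫ y, g k y ∂(Yk k).m)))
    (f : (∀ k, (Yk k).Y) → ℝ) (hf : Continuous f) (hc : HasCompactSupport f) :
    Tendsto (fun i => avg (orb GF ⊤ (xk i)) fun y => f fun k => (Yk k).val (y k)) l
      (𝓝 (∫ y, f y ∂(Measure.pi fun k => (Yk k).m))) := by
  rw [Metric.tendsto_nhds]
  intro ε hε
  obtain ⟨ι, i1, c, g, hg, hfg⟩ := dens f hf hc (ε / 4) (by positivity)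
  have hint : ∀ a, Integrable (fun y : (∀ j, (Yk j).Y) => ∏ j, g a j (y j))
      (Measure.pi fun j => (Yk j).m) := fun a =>
    Integrable.fintype_prod_dep fun j => (hg a j).1.integrable_of_hasCompactSupport (hg a j).2
  have hfint : Integrable f (Measure.pi fun j => (Yk j).m) :=
    hf.integrable_of_hasCompactSupport hc
  have hI : |∫ y, f y ∂(Measure.pi fun j => (Yk j).m) -
      ∑ a, c a * ∏ j, ∫ y, g a j y ∂(Yk j).m| ≤ ε / 4 := by
    have e1 : ∑ a, c a * ∏ j, ∫ y, g a j y ∂(Yk j).m =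
        ∫ y, ∑ a, c a * ∏ j, g a j (y j) ∂(Measure.pi fun j => (Yk j).m) := by
      rw [integral_finsetSum _ fun a _ => (hint a).const_mul (c a)]
      refine Finset.sum_congr rfl fun a _ => ?_
      rw [integral_const_mul, integral_fintype_prod_eq_prod]
    rw [e1, ← integral_sub hfint (integrable_finsetSum _ fun a _ => (hint a).const_mul (c a))]
    rw [← Real.norm_eq_abs]
    refine (norm_integral_le_of_norm_le_const (C := ε / 4)
      (Filter.Eventually.of_forall fun y => ?_)).trans ?_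
    · rw [Real.norm_eq_abs]; exact hfg y
    · simp
  have hev : Tendsto (fun i => ∑ a, c a * avg (orb GF ⊤ (xk i))
      (fun y => ∏ j, g a j ((Yk j).val (y j)))) l
      (𝓝 (∑ a, c a * ∏ j, ∫ y, g a j y ∂(Yk j).m)) :=
    tendsto_finsetSum _ fun a _ => Tendsto.const_mul _ (hprod (g a) (hg a))
  filter_upwards [Metric.tendsto_nhds.mp hev (ε / 4) (by positivity)] with i h1
  have hS := hfin i
  have h2 := avg_sub_le hS ⟨xk i, self_mem_orb _ _⟩ (fun y => f fun j => (Yk j).val (y j))
    (fun y => ∑ a, c a * ∏ j, g a j ((Yk j).val (y j))) (ε / 4) (fun y => hfg _)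
  rw [avg_lin hS c fun a y => ∏ j, g a j ((Yk j).val (y j))] at h2
  rw [Real.dist_eq] at h1 ⊢
  rw [abs_le] at h2 hI
  rw [abs_lt] at h1 ⊢
  constructor <;> linarith [h1.1, h1.2, h2.1, h2.2, hI.1, hI.2]

variable {n : ℕ} {C : Subgroup G} {Y : Fin n → CMCurve G GF}

/-- the projections of the orbits to the product of the curves with index in `T` -/
lemma avg_restrict (hF : ∀ j, CMFacts C (Y j)) (T : Finset (Fin n)) (x : Special Y)
    (h : (∀ j : T, (Y j).P) → ℝ) :
    avg (orb GF ⊤ fun j : T => x j) h = avg (orb GF ⊤ x) fun y => h fun j : T => y j :=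
  (avg_proj (fun (z : Special Y) (j : T) => z j) (fun _ _ => rfl) ⊤ x (orb_fin' hF x ⊤) h).symm

lemma orb_fin_restrict (hF : ∀ j, CMFacts C (Y j)) (T : Finset (Fin n)) (x : Special Y) :
    (orb GF ⊤ fun j : T => x j).Finite := by
  have h1 : (orb GF ⊤ fun j : T => x j) = (fun (z : Special Y) (j : T) => z j) '' orb GF ⊤ x := by
    ext y
    constructor
    · rintro ⟨g, hg, rfl⟩
      exact ⟨g • x, ⟨g, hg, rfl⟩, rfl⟩
    · rintro ⟨_, ⟨g, hg, rfl⟩, rfl⟩
      exact ⟨g, hg, rfl⟩
  rw [h1]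
  exact (orb_fin' hF x ⊤).image _

/-- convergence on the product of the curves with index in `T` along a filter -/
def EqOn (l : Filter ℕ) (Y : Fin n → CMCurve G GF) (T : Finset (Fin n)) (x : ℕ → Special Y) :
    Prop :=
  ∀ f : (∀ j : T, (Y j).Y) → ℝ, Continuous f → HasCompactSupport f →
    Tendsto (fun i => avg (orb GF ⊤ fun j : T => x i j) fun y => f fun j => (Y j).val (y j))
      l (𝓝 (∫ y, f y ∂(Measure.pi fun j : T => (Y j).m)))

lemma eqOn_of_prodOn (hF : ∀ j, CMFacts C (Y j)) (l : Filter ℕ) (T : Finset (Fin n))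
    (x : ℕ → Special Y) (h : ProdOn l Y T x) : EqOn l Y T x := by
  classical
  intro f hf hc
  refine conv_core (fun j : T => Y j) (fun i j => x i j) (fun i => orb_fin_restrict hF T (x i)) l
    ?_ f hf hc
  intro g hg
  let φ : ∀ j, (Y j).Y → ℝ := fun j => if hj : j ∈ T then g ⟨j, hj⟩ else 0
  have hφ : ∀ (j : Fin n) (hj : j ∈ T), φ j = g ⟨j, hj⟩ := fun j hj => dif_pos hj
  have hφ2 : ∀ j, Continuous (φ j) ∧ HasCompactSupport (φ j) := by
    intro j
    by_cases hj : j ∈ T
    · rw [hφ j hj]; exact hg _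
    · have : φ j = 0 := dif_neg hj
      rw [this]
      exact ⟨continuous_zero, HasCompactSupport.zero⟩
  have h1 := h φ hφ2
  have e1 : ∏ j ∈ T, ∫ y, φ j y ∂(Y j).m = ∏ k : T, ∫ y, g k y ∂(Y k).m := by
    rw [← Finset.prod_coe_sort]
    exact Finset.prod_congr rfl fun k _ => by rw [hφ k k.2]
  rw [e1] at h1
  refine h1.congr fun i => ?_
  rw [avg_restrict hF T (x i)]
  refine avg_congr (orb_fin' hF (x i) ⊤) fun y _ => ?_
  rw [← Finset.prod_coe_sort]
  exact Finset.prod_congr rfl fun k _ => by rw [hφ k k.2]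

lemma prodOn_of_eqOn (hF : ∀ j, CMFacts C (Y j)) (l : Filter ℕ) (T : Finset (Fin n))
    (x : ℕ → Special Y) (h : EqOn l Y T x) : ProdOn l Y T x := by
  intro φ hφ
  let f : (∀ j : T, (Y j).Y) → ℝ := fun y => ∏ j : T, φ j (y j)
  have hf : Continuous f := continuous_finsetProd _ fun j _ => (hφ j).1.comp (continuous_apply j)
  have hc : HasCompactSupport f := by
    refine HasCompactSupport.of_support_subset_isCompact
      (K := Set.pi Set.univ fun j : T => tsupport (φ j)) (isCompact_univ_pi fun j => (hφ j).2) ?_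
    intro y hy j _
    refine subset_tsupport _ ?_
    intro h0
    exact hy (Finset.prod_eq_zero (Finset.mem_univ j) h0)
  have h1 := h f hf hc
  have e1 : ∫ y, f y ∂(Measure.pi fun j : T => (Y j).m) = ∏ j ∈ T, ∫ y, φ j y ∂(Y j).m := by
    rw [← Finset.prod_coe_sort]
    exact integral_fintype_prod_eq_prod (fun j : T => φ j)
  rw [e1] at h1
  refine h1.congr fun i => ?_
  rw [avg_restrict hF T (x i)]
  refine avg_congr (orb_fin' hF (x i) ⊤) fun y _ => ?_
  rw [← Finset.prod_coe_sort]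

lemma equidistributed_of_prodOn (hF : ∀ j, CMFacts C (Y j)) (x : ℕ → Special Y)
    (h : ProdOn atTop Y Finset.univ x) : Equidistributed Y x := fun f hf hc =>
  conv_core Y x (fun i => orb_fin' hF (x i) ⊤) atTop h f hf hc

end Pool.Agent.Q155.HK
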