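import Pool.Agent.Q155.HK.Conv

/-!
# Sequences without a core
-/

namespace Pool.Agent.Q155.HK

open Filter Topology MeasureTheory Pool.Agent.Q28.EQ

variable {G : Type} [Group G] {GF : Subgroup G} {n : ℕ} {C : Subgroup G}
  {Y : Fin n → CMCurve G GF} {Z : CMCurve G GF} {N : ℕ}
  {loc : Subgroup G → ℕ → ℕ → Subgroup G} {D : ∀ j, Descent Z (Y j)}

lemma prodOn_empty (hF : ∀ j, CMFacts C (Y j)) (l : Filter ℕ) (x : ℕ → Special Y) :
    ProdOn l Y ∅ x := by
  intro φ _
  simp only [Finset.prod_empty]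
  have : (fun i => avg (orb GF ⊤ (x i)) fun _ => (1 : ℝ)) = fun _ => 1 := by
    funext i
    exact avg_const (orb_fin' hF (x i) ⊤) ⟨x i, self_mem_orb _ _⟩ 1
  rw [this]
  exact tendsto_const_nhds

/-- one step: no core with support exactly `T` -/
lemma step (hF : ∀ j, CMFacts C (Y j)) (hZ : CMFacts C Z) (hCn : C.Normal) (hCi : C.index ≠ 0)
    (hD : ∀ j, HeckeFacts C N loc Z (Y j) (D j)) (l : Filter ℕ) (x : ℕ → Special Y)
    (T : Finset (Fin n)) (hx : ∀ j ∈ T, ∀ B, ∀ᶠ i in l, B ≤ (Y j).disc (x i j)) (hT : T.Nonempty)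
    (hcore : ∀ B, ∀ᶠ i in l, ¬ ∀ j ∈ T, Shared Y T j (x i) ∧ gap D T j (x i) ≤ B)
    (hrest : ∀ j ∈ T, ProdOn l Y (T.erase j) x) : ProdOn l Y T x := by
  classical
  let h : ℕ → Fin n → ℕ∞ := fun i j => if Shared Y T j (x i) then (gap D T j (x i) : ℕ∞) else ⊤
  have hmax : ∀ i, ∃ j ∈ T, ∀ k ∈ T, h i k ≤ h i j := fun i => T.exists_max_image (h i) hT
  choose J hJT hJ using hmax
  have hpart : ∀ j ∈ T, ProdOn (l ⊓ 𝓟 {i | J i = j}) Y T x := by
    intro j hj
    refine peel hF hZ hCn hCi hD _ x T j hj (fun B => (hx j hj B).filter_mono inf_le_left) ?_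
      fun φ hφ => (hrest j hj φ hφ).mono_left inf_le_left
    intro B
    rw [eventually_inf_principal]
    filter_upwards [hcore B] with i hi hij hs
    have hij' : J i = j := hij
    by_contra hlt
    apply hi
    intro k hk
    have h1 := hJ i k hk
    rw [hij'] at h1
    have h2 : h i j = (gap D T j (x i) : ℕ∞) := if_pos hs
    rw [h2] at h1
    by_cases hsk : Shared Y T k (x i)
    · refine ⟨hsk, ?_⟩
      have h3 : h i k = (gap D T k (x i) : ℕ∞) := if_pos hsk
      rw [h3] at h1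
      have h4 : gap D T k (x i) ≤ gap D T j (x i) := by exact_mod_cast h1
      omega
    · have h3 : h i k = ⊤ := if_neg hsk
      rw [h3] at h1
      exact absurd h1 (by simp)
  intro φ hφ
  rw [tendsto_def]
  intro s hs
  have h1 : ∀ᶠ i in l, ∀ j ∈ T, J i = j →
      avg (orb GF ⊤ (x i)) (fun y => ∏ j ∈ T, φ j ((Y j).val (y j))) ∈ s := by
    rw [Filter.eventually_all_finset]
    intro j hj
    have h2 := hpart j hj φ hφ hs
    exact eventually_inf_principal.mp h2
  filter_upwards [h1] with i hi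
  exact hi (J i) (hJT i) rfl

/-- sequences without a core are equidistributed -/
lemma noCore (hF : ∀ j, CMFacts C (Y j)) (hZ : CMFacts C Z) (hCn : C.Normal) (hCi : C.index ≠ 0)
    (hD : ∀ j, HeckeFacts C N loc Z (Y j) (D j)) (l : Filter ℕ) (x : ℕ → Special Y)
    (hx : ∀ j B, ∀ᶠ i in l, B ≤ (Y j).disc (x i j))
    (hcore : ∀ T : Finset (Fin n), T.Nonempty → ∀ B,
      ∀ᶠ i in l, ¬ ∀ j ∈ T, Shared Y T j (x i) ∧ gap D T j (x i) ≤ B) (T : Finset (Fin n)) :
    ProdOn l Y T x := by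
  induction T using Finset.strongInduction with
  | H T ih =>
    rcases T.eq_empty_or_nonempty with rfl | hT
    · exact prodOn_empty hF l x
    · exact step hF hZ hCn hCi hD l x T (fun j _ => hx j) hT (hcore T hT) fun j hj =>
        ih _ (Finset.erase_ssubset hj)

lemma disc_large (hF : ∀ j, CMFacts C (Y j)) (x : ℕ → Special Y) (j : Fin n)
    (hx : ∀ p : (Y j).P, {i | x i j = p}.Finite) (B : ℕ) :
    ∀ᶠ i in atTop, B ≤ (Y j).disc (x i j) := by
  have h1 : {i | (Y j).disc (x i j) ≤ B}.Finite := by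
    have h2 : {i | (Y j).disc (x i j) ≤ B} ⊆ ⋃ p ∈ {p | (Y j).disc p ≤ B}, {i | x i j = p} := by
      intro i hi
      simp only [Set.mem_iUnion]
      exact ⟨x i j, hi, rfl⟩
    exact (Set.Finite.biUnion ((hF j).finite_disc B) fun p _ => hx p).subset h2
  rw [← Nat.cofinite_eq_atTop]
  filter_upwards [h1.compl_mem_cofinite] with i hi
  by_contra h
  exact hi (Set.mem_ofPred.mpr (not_le.mp h).le)

/-- The sequence has a core with support `T`: every coordinate in `T` shares its CM field, and its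
gap is constant. -/
def IsCore (D : ∀ j, Descent Z (Y j)) (T : Finset (Fin n)) (x : ℕ → Special Y) : Prop :=
  ∃ g : Fin n → ℕ, ∀ i, ∀ j ∈ T, Shared Y T j (x i) ∧ gap D T j (x i) = g j

/-- the reduction to the sequences which are a core -/
lemma reduction (hF : ∀ j, CMFacts C (Y j)) (hZ : CMFacts C Z) (hCn : C.Normal)
    (hCi : C.index ≠ 0) (hD : ∀ j, HeckeFacts C N loc Z (Y j) (D j))
    (𝒵 : Finset (Fin n) → Set (Set (Special Y)))
    (h𝒵 : ∀ T, ∀ j ∈ T, ∀ p : (Y j).P, {x | x j = p} ∈ 𝒵 T) (hmono : ∀ S T, S ⊆ T → 𝒵 S ⊆ 𝒵 T)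
    (hQ : ∀ T : Finset (Fin n), T.Nonempty → ∀ x : ℕ → Special Y, IsCore D T x →
      (∀ A ∈ 𝒵 T, {i | x i ∈ A}.Finite) → EquidistributedOn Y T x)
    (T : Finset (Fin n)) : ∀ x : ℕ → Special Y, (∀ A ∈ 𝒵 T, {i | x i ∈ A}.Finite) →
      ProdOn atTop Y T x := by
  classical
  induction T using Finset.strongInduction with
  | H T ih =>
    intro x hx
    rcases T.eq_empty_or_nonempty with rfl | hT
    · exact prodOn_empty hF atTop x
    intro φ hφ
    refine tendsto_of_subseq_tendsto fun ns hns => ?_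
    have hx' : ∀ A ∈ 𝒵 T, {i | x (ns i) ∈ A}.Finite := by
      intro A hA
      have h1 : (ns ⁻¹' {i | x i ∈ A}).Finite := by
        have h2 : ∀ᶠ i in atTop, i ∉ {i | x i ∈ A} := by
          rw [← Nat.cofinite_eq_atTop]
          exact (hx A hA).compl_mem_cofinite
        have h3 := hns.eventually h2
        rw [← Nat.cofinite_eq_atTop] at h3
        have h4 : {i | ¬ (ns i ∉ {i | x i ∈ A})}.Finite := h3
        refine h4.subset fun i hi => ?_
        exact not_not.mpr hi
      exact h1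
    by_cases hA : ∃ g : Fin n → ℕ, ∃ᶠ i in atTop,
        ∀ j ∈ T, Shared Y T j (x (ns i)) ∧ gap D T j (x (ns i)) = g j
    · obtain ⟨g, hg⟩ := hA
      obtain ⟨ms, hms, hms2⟩ := extraction_of_frequently_atTop hg
      refine ⟨ms, ?_⟩
      have h1 : EquidistributedOn Y T fun i => x (ns (ms i)) := by
        refine hQ T hT _ ⟨g, fun i => hms2 i⟩ fun A hA => ?_
        exact Set.Finite.preimage (f := ms) (s := {i | x (ns i) ∈ A}) hms.injective.injOn (hx' A hA)
      exact prodOn_of_eqOn hF atTop T (fun i => x (ns (ms i))) h1 φ hφ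
    · refine ⟨id, ?_⟩
      have h1 : ProdOn atTop Y T fun i => x (ns i) := by
        refine step hF hZ hCn hCi hD atTop _ T (fun j hj B => disc_large hF _ j
          (fun p => hx' _ (h𝒵 T j hj p)) B) hT (fun B => ?_) fun j hj =>
          ih _ (Finset.erase_ssubset hj) _ fun A hA => hx' A (hmono _ _ (Finset.erase_subset j T) hA)
        have h2 : ∀ᶠ i in atTop, ∀ g : Fin n → Fin (B + 1),
            ¬ ∀ j ∈ T, Shared Y T j (x (ns i)) ∧ gap D T j (x (ns i)) = (g j : ℕ) := by
          rw [Filter.eventually_all]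
          intro g
          exact Filter.not_frequently.mp fun h3 => hA ⟨fun j => (g j : ℕ), h3⟩
        filter_upwards [h2] with i hi hall
        refine hi (fun j => if hj : j ∈ T then ⟨gap D T j (x (ns i)), by
          have := (hall j hj).2; omega⟩ else 0) fun j hj => ⟨(hall j hj).1, ?_⟩
        rw [dif_pos hj]
      exact h1 φ hφ

end Pool.Agent.Q155.HK
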