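import Pool.Agent.Q28.EQ.Main

/-!
# Conductors of special points on products of modular curves and Hecke orbits: definitions

The modular curves `Y`, their CM points and the action of Galois are described by `CMCurve` and the
known facts `CMFacts` of `Pool.Agent.Q28.EQ.Defs`. Here we add the conductors of the orders, the
elliptic curves with the larger orders, and the equidistribution of Hecke orbits.
-/

namespace Pool.Agent.Q155.HK

open MeasureTheory Pool.Agent.Q28.EQ

variable {G : Type} [Group G] {GF : Subgroup G}

/-- The conductors of the CM points of the modular curve `Y`. `Z` is the modular curve of level one. -/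
structure Descent (Z Y : CMCurve G GF) where
  /-- the part prime to the levels of the conductor of the order of the point `x` -/
  cond : Y.P → ℕ
  /-- `low q x` is the point of the curve of level one below `x` of conductor `cond x / q`: if `x` is
  the elliptic curve of the lattice `Λ` with order `O`, it is the elliptic curve of the lattice
  `O' Λ`, where `O'` is the order of conductor `cond x / q`. -/
  low : ℕ → Y.P → Z.P

/-- The Galois group of the ring class field (with level) of the order of conductor `c / p ^ n`, where
`c` is the conductor of the order of `x`. It is generated by the Galois group of the ring class field of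
`x` and the group `loc K p m` of the local units of conductor `p ^ m`, `p ^ m` being the power of `p`
in `c / p ^ n`. -/
def upper (loc : Subgroup G → ℕ → ℕ → Subgroup G) {Z Y : CMCurve G GF} (D : Descent Z Y) (p n : ℕ)
    (x : Y.P) : Subgroup G :=
  Y.H x ⊔ loc (Y.K x) p ((D.cond x).factorization p - n)

/-- Known facts on ring class fields and Hecke orbits. `N` is the product of the levels of all
curves. `loc K p m` is the subgroup of the Galois group of the CM field `K` belonging by class field
theory to the local units `(ℤ_p + p ^ m O_(K,p))ˣ`.
* `loc_le_H`: the local units of conductor `p ^ m` act trivially on the ring class fields whose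
  conductor is not divisible by `p ^ (m + 1)`.
* `torsion`: the local groups `(ℤ_p + p ^ m O)ˣ / (ℤ_p + p ^ (m + n) O)ˣ` are generated by a bounded
  number of elements.
* `hecke`: equidistribution of the orbits under the Galois group of the ring class field of
  conductor `c / p ^ n` (and its subgroups of bounded index) of the point `x` of conductor `c`. These
  are Hecke orbits: the points of conductor `c` at distance `n` in the tree of `p`-isogenies from the
  point `low (p ^ n) x`. They are equidistributed for `p ^ n → ∞`, uniformly if `low (p ^ n) x` is in
  a fixed compact set (Clozel, Oh, Ullmo; for `n = 1` and proper subgroups Fouvry, Kowalski, Michel). -/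
structure HeckeFacts (C : Subgroup G) (N : ℕ) (loc : Subgroup G → ℕ → ℕ → Subgroup G)
    (Z Y : CMCurve G GF) (D : Descent Z Y) : Prop where
  cond_ne_zero : ∀ x, D.cond x ≠ 0
  coprime : ∀ x, (D.cond x).Coprime N
  cond_smul : ∀ (g : GF) x, D.cond (g • x) = D.cond x
  low_smul : ∀ q (g : GF) x, D.low q (g • x) = g • D.low q x
  loc_le_K : ∀ x p m, p.Prime → loc (Y.K x) p m ≤ Y.K x
  loc_le_H : ∀ x p m, p.Prime → ¬ p ∣ N → (D.cond x).factorization p ≤ m →
    loc (Y.K x) p m ≤ Y.H x
  torsion : ∀ k, ∃ B, ∀ x p n, p.Prime → p ^ n ∣ D.cond x →
    torsion (upper loc D p n x) (Y.H x) (2 ^ k) ≤ B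
  hecke : ∀ f : Y.Y → ℝ, Continuous f → HasCompactSupport f → ∀ Ω : Set Z.Y, IsCompact Ω →
    ∀ (B : ℕ) (ε : ℝ), 0 < ε → ∃ Q : ℕ, ∀ x p n, p.Prime → p ^ n ∣ D.cond x → Q ≤ p ^ n →
      Z.val (D.low (p ^ n) x) ∈ Ω → ∀ U : Subgroup G, U ≤ C → U ≤ upper loc D p n x →
      (U ⊔ Y.H x).relIndex (upper loc D p n x) ≤ B →
      |avg (orb GF U x) (fun y => f (Y.val y)) - ∫ y, f y ∂Y.m| ≤ ε

variable {n : ℕ} {Z : CMCurve G GF}

/-- The coordinate `j` of the special point `x` shares its CM field with another coordinate in `T`. -/
def Shared (Y : Fin n → CMCurve G GF) (T : Finset (Fin n)) (j : Fin n) (x : Special Y) : Prop :=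
  ∃ k ∈ T, k ≠ j ∧ (Y k).K (x k) = (Y j).K (x j)

open scoped Classical in
/-- The gap of the coordinate `j`: the conductor of the coordinate `j` divided by its greatest common
divisor with the least common multiple of the conductors of the other coordinates in `T` with the
same CM field. -/
noncomputable def gap {Y : Fin n → CMCurve G GF} (D : ∀ j, Descent Z (Y j)) (T : Finset (Fin n))
    (j : Fin n) (x : Special Y) : ℕ :=
  (D j).cond (x j) / Nat.gcd ((D j).cond (x j))
    ((T.filter fun k => k ≠ j ∧ (Y k).K (x k) = (Y j).K (x j)).lcm fun k => (D k).cond (x k))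

/-- The Galois orbits of the projections of the special points `x i` to the product of the curves
`Y j` with `j ∈ T` converge weakly to the invariant measure. -/
def EquidistributedOn (Y : Fin n → CMCurve G GF) (T : Finset (Fin n)) (x : ℕ → Special Y) : Prop :=
  ∀ f : (∀ j : T, (Y j).Y) → ℝ, Continuous f → HasCompactSupport f →
    Filter.Tendsto (fun i => avg (orb GF ⊤ fun j : T => x i j) fun y => f fun j => (Y j).val (y j))
      Filter.atTop (nhds (∫ y, f y ∂(Measure.pi fun j : T => (Y j).m)))

end Pool.Agent.Q155.HK
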