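import Mathlib

/-!
# Numbers with a large gap have a large prime power in the gap
-/

namespace Pool.Agent.Q155.HK

/-- a large number has a large prime power factor -/
lemma exists_large_prime_power (Q g : ℕ) (hg : Q ^ Q < g) :
    ∃ p, p.Prime ∧ 0 < g.factorization p ∧ Q ≤ p ^ g.factorization p := by
  by_contra hc
  push Not at hc
  have hg0 : g ≠ 0 := by omega
  have hQ : 1 ≤ Q := by
    by_contra h
    have h0 : Q = 0 := by omega
    subst h0
    have hg1 : g ≠ 1 := by simp at hg; omega
    obtain ⟨p, hp, hpg⟩ := Nat.exists_prime_and_dvd hg1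
    have h1 : 0 < g.factorization p := hp.factorization_pos_of_dvd hg0 hpg
    have := hc p hp h1
    omega
  have h1 : g = ∏ p ∈ g.primeFactors, p ^ g.factorization p := by
    conv_lhs => rw [← Nat.prod_factorization_pow_eq_self hg0]
    rfl
  have h2 : ∀ p ∈ g.primeFactors, p ^ g.factorization p ≤ Q := fun p hp => by
    have hp' := Nat.prime_of_mem_primeFactors hp
    have h3 : 0 < g.factorization p :=
      hp'.factorization_pos_of_dvd hg0 (Nat.dvd_of_mem_primeFactors hp)
    exact (hc p hp' h3).le
  have h4 : g.primeFactors.card ≤ Q := by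
    have : g.primeFactors ⊆ Finset.range Q := by
      intro p hp
      have hp' := Nat.prime_of_mem_primeFactors hp
      have h3 : 0 < g.factorization p :=
        hp'.factorization_pos_of_dvd hg0 (Nat.dvd_of_mem_primeFactors hp)
      rw [Finset.mem_range]
      exact lt_of_le_of_lt (Nat.le_self_pow h3.ne' p) (hc p hp' h3)
    calc _ ≤ (Finset.range Q).card := Finset.card_le_card this
      _ = Q := Finset.card_range Q
  have h5 : g ≤ Q ^ Q := by
    rw [h1]
    calc _ ≤ ∏ _p ∈ g.primeFactors, Q := Finset.prod_le_prod' h2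
      _ = Q ^ g.primeFactors.card := by rw [Finset.prod_const]
      _ ≤ Q ^ Q := Nat.pow_le_pow_right hQ h4
  omega

/-- the gap `c / gcd c L` is large: there is a large prime power in the gap -/
lemma exists_prime_power_gap (Q c L : ℕ) (hc : c ≠ 0) (hL : L ≠ 0) (h : Q ^ Q < c / Nat.gcd c L) :
    ∃ p n, p.Prime ∧ 0 < n ∧ Q ≤ p ^ n ∧ p ^ n ∣ c ∧
      L.factorization p + n = c.factorization p := by
  obtain ⟨p, hp, h1, h2⟩ := exists_large_prime_power Q _ h
  have h3 : (c / Nat.gcd c L).factorization p =
      c.factorization p - (min (c.factorization p) (L.factorization p)) := by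
    rw [Nat.factorization_div (Nat.gcd_dvd_left c L), Nat.factorization_gcd hc hL]
    rfl
  refine ⟨p, _, hp, h1, h2, ?_, ?_⟩
  · rw [hp.pow_dvd_iff_le_factorization hc, h3]
    omega
  · rw [h3] at h1 ⊢
    omega

end Pool.Agent.Q155.HK
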