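import Pool.Agent.Q28.EQ.Idx

/-!
# The index of the group which moves only one coordinate in the local group
-/

namespace Pool.Agent.Q155.HK

open Pool.Agent.Q28.EQ

variable {G : Type*} [Group G]

/-- passing to the product with a normal subgroup does not increase the index -/
lemma relIndex_sup_le (A B H : Subgroup G) (hH : H.Normal) (hBA : B ≤ A) (h0 : B.relIndex A ≠ 0) :
    (B ⊔ H).relIndex (A ⊔ H) ≤ B.relIndex A := by
  have hker : (QuotientGroup.mk' H).ker = H := QuotientGroup.ker_mk' H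
  have e1 := Subgroup.relIndex_map_map (QuotientGroup.mk' H) B A
  rw [hker] at e1
  rw [← e1]
  have hs := (QuotientGroup.mk' H).subgroupMap_surjective A
  have e2 : ((B.subgroupOf A).map ((QuotientGroup.mk' H).subgroupMap A)) =
      (B.map (QuotientGroup.mk' H)).subgroupOf (A.map (QuotientGroup.mk' H)) := by
    ext y
    rw [Subgroup.mem_map, Subgroup.mem_subgroupOf, Subgroup.mem_map]
    constructor
    · rintro ⟨a, ha, rfl⟩
      exact ⟨a, Subgroup.mem_subgroupOf.mp ha, rfl⟩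
    · rintro ⟨b, hb, hby⟩
      refine ⟨⟨b, hBA hb⟩, Subgroup.mem_subgroupOf.mpr hb, ?_⟩
      exact Subtype.ext hby
  rw [Subgroup.relIndex, ← e2]
  exact Nat.le_of_dvd (Nat.pos_of_ne_zero h0) (Subgroup.index_map_dvd _ hs)

variable {ι : Type*} [Fintype ι]

/-- The group moving only the coordinate `j` has small index in the group generated by `H j` and `V`,
if `V` fixes all other coordinates with the same CM field. -/
lemma index_bound_upper (C : Subgroup G) (hC : C.Normal) (hCi : C.index ≠ 0) (K H : ι → Subgroup G)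
    (hD : ∀ k, Dihedral C (K k) (H k)) (j : ι) (hfin : (H j).FiniteIndex) (V : Subgroup G)
    (hVK : V ≤ K j) (hV : ∀ k, k ≠ j → K k = K j → V ≤ H k) :
    ((moveOnly C K H j ⊓ (H j ⊔ V)) ⊔ H j).relIndex (H j ⊔ V) ≤
      torsion (H j ⊔ V) (H j) (2 ^ Fintype.card ι) * (C.index * 2 ^ Fintype.card ι) := by
  haveI := (hD j).normal
  have hKn : ∀ k, (K k).Normal := fun k => Subgroup.normal_of_index_eq_two (hD k).index_two
  set N : Subgroup G := C ⊓ ⨅ k, K k with hN
  set R := sameField K H j with hR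
  set M := moveOnly C K H j with hM
  set L := H j ⊔ V with hL
  have hNn : N.Normal := by
    haveI : (⨅ k, K k).Normal := normal_iInf hKn
    exact Subgroup.normal_inf_normal _ _
  have hHL : H j ≤ L := le_sup_left
  have hLK : L ≤ K j := sup_le (hD j).le hVK
  have hVR : V ≤ R := fun v hv => mem_sameField.mpr ⟨hVK hv, fun k hk hkK => hV k hk hkK hv⟩
  set W := (L ⊓ R) ⊓ N with hW
  have hMW : M ⊓ L ≤ W := by
    intro g hg
    obtain ⟨hgM, hgL⟩ := Subgroup.mem_inf.mp hg
    obtain ⟨h1, h2⟩ := mem_moveOnly.mp hgM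
    refine Subgroup.mem_inf.mpr ⟨Subgroup.mem_inf.mpr ⟨hgL, mem_sameField.mpr
      ⟨h1.2 j, fun k hk _ => h2 k hk⟩⟩, ?_⟩
    rw [hN, Subgroup.mem_inf, Subgroup.mem_iInf]
    exact h1
  have hWL : W ≤ L := inf_le_left.trans inf_le_left
  have j1 : ((M ⊓ L) ⊔ H j).relIndex (W ⊔ H j) ≤ torsion L (H j) (2 ^ Fintype.card ι) := by
    refine relIndex_le_torsion' L (H j) (M ⊓ L) W (hD j).normal hHL hWL hMW hfin
      (fun σ hσ τ hτ => (hD j).abelian σ (hLK hσ) τ (hLK hτ)) _ fun w hw => ?_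
    have hw1 : w ∈ R := (Subgroup.mem_inf.mp (Subgroup.mem_inf.mp hw).1).2
    have hw2 : w ∈ L := hWL hw
    have h3 := pow_mem_moveOnly C hC K H hD j w hw1 (Subgroup.mem_inf.mp hw).2
    obtain ⟨m, hm, h, hh, hmh⟩ := Subgroup.mem_sup_of_normal_right.mp h3
    rw [← hmh]
    refine Subgroup.mul_mem_sup (Subgroup.mem_inf.mpr ⟨hm, ?_⟩) hh
    have h4 : m = w ^ (2 ^ Fintype.card ι) * h⁻¹ := by rw [← hmh]; group
    rw [h4]
    exact L.mul_mem (L.pow_mem hw2 _) (L.inv_mem (hHL hh))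
  have hNi := index_inf_pow C K hCi fun k => (hD k).index_two
  have h0 : W.relIndex (L ⊓ R) ≠ 0 := by
    rw [hW, Subgroup.inf_relIndex_left]
    intro h0
    have := Subgroup.relIndex_dvd_index_of_normal N (L ⊓ R)
    rw [h0] at this
    exact hNi.1 (zero_dvd_iff.mp this)
  have j2 : (W ⊔ H j).relIndex ((L ⊓ R) ⊔ H j) ≤ C.index * 2 ^ Fintype.card ι := by
    refine (relIndex_sup_le (L ⊓ R) W (H j) (hD j).normal inf_le_left h0).trans ?_
    rw [hW, Subgroup.inf_relIndex_left]
    exact (Nat.le_of_dvd (Nat.pos_of_ne_zero hNi.1)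
      (Subgroup.relIndex_dvd_index_of_normal N (L ⊓ R))).trans hNi.2
  have hLe : (L ⊓ R) ⊔ H j = L := by
    apply le_antisymm (sup_le inf_le_left hHL)
    exact sup_le le_sup_right (le_sup_of_le_left (le_inf le_sup_right hVR))
  rw [hLe] at j2
  have i1 := Subgroup.relIndex_mul_relIndex ((M ⊓ L) ⊔ H j) (W ⊔ H j) L
    (sup_le_sup_right hMW _) (sup_le hWL hHL)
  rw [← i1]
  exact Nat.mul_le_mul j1 j2

end Pool.Agent.Q155.HK
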