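import Pool.Agent.Q155.HK.Core

/-!
# Special points with at most two coordinates in each CM field
-/

namespace Pool.Agent.Q155.HK

open Filter Topology MeasureTheory Pool.Agent.Q28.EQ

variable {G : Type} [Group G] {GF : Subgroup G} {n : ℕ}
  {Y : Fin n → CMCurve G GF} {Z : CMCurve G GF} {D : ∀ j, Descent Z (Y j)}

lemma gap_single (T : Finset (Fin n)) (j k : Fin n) (x : Special Y)
    (h0 : ∀ k, (D k).cond (x k) ≠ 0) (hk : k ∈ T) (hkj : k ≠ j)
    (hkK : (Y k).K (x k) = (Y j).K (x j))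
    (huniq : ∀ m ∈ T, m ≠ j → (Y m).K (x m) = (Y j).K (x j) → m = k) :
    gap D T j x = (D j).cond (x j) / Nat.gcd ((D j).cond (x j)) ((D k).cond (x k)) := by
  obtain ⟨L, h1, -, h3, h4⟩ := exists_lcm D T j x h0
  have h5 : L = (D k).cond (x k) := by
    apply Nat.dvd_antisymm
    · refine h4 _ fun m hm hmj hmK => ?_
      rw [huniq m hm hmj hmK]
    · exact h3 k hk hkj hkK
  rw [h1, h5]

lemma noCore_of_pairs (h0 : ∀ k (p : (Y k).P), (D k).cond p ≠ 0) (x : ℕ → Special Y)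
    (h3 : ∀ᶠ i in atTop, ∀ j k m : Fin n, j ≠ k → j ≠ m → k ≠ m →
      (Y j).K (x i j) = (Y k).K (x i k) → (Y j).K (x i j) ≠ (Y m).K (x i m))
    (hr : ∀ j k, j ≠ k → ∀ a b, 0 < a → 0 < b → {i | (Y j).K (x i j) = (Y k).K (x i k) ∧
      b * (D j).cond (x i j) = a * (D k).cond (x i k)}.Finite) (T : Finset (Fin n))
    (hT : T.Nonempty) (B : ℕ) :
    ∀ᶠ i in atTop, ¬ ∀ j ∈ T, Shared Y T j (x i) ∧ gap D T j (x i) ≤ B := by
  have h4 : ∀ᶠ i in atTop, ∀ (j k : Fin n) (a b : Fin (B + 1)), j ≠ k → 0 < (a : ℕ) →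
      0 < (b : ℕ) → ¬ ((Y j).K (x i j) = (Y k).K (x i k) ∧
        (b : ℕ) * (D j).cond (x i j) = (a : ℕ) * (D k).cond (x i k)) := by
    simp only [Filter.eventually_all]
    intro j k a b hjk ha hb
    rw [← Nat.cofinite_eq_atTop]
    exact (hr j k hjk a b ha hb).compl_mem_cofinite
  filter_upwards [h3, h4] with i hi3 hi4 hall
  obtain ⟨j, hj⟩ := hT
  obtain ⟨k, hk, hkj, hkK⟩ := (hall j hj).1
  have u1 : ∀ m ∈ T, m ≠ j → (Y m).K (x i m) = (Y j).K (x i j) → m = k := by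
    intro m _ hmj hmK
    by_contra hmk
    exact hi3 j k m hkj.symm (Ne.symm hmj) (Ne.symm hmk) hkK.symm hmK.symm
  have u2 : ∀ m ∈ T, m ≠ k → (Y m).K (x i m) = (Y k).K (x i k) → m = j := by
    intro m _ hmk hmK
    by_contra hmj
    exact hi3 j k m hkj.symm (Ne.symm hmj) (Ne.symm hmk) hkK.symm (hmK.trans hkK).symm
  have g1 := gap_single (D := D) T j k (x i) (fun k => h0 k _) hk hkj hkK u1
  have g2 := gap_single (D := D) T k j (x i) (fun k => h0 k _) hj hkj.symm hkK.symm u2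
  have b1 := (hall j hj).2
  have b2 := (hall k hk).2
  set cj := (D j).cond (x i j) with hcj
  set ck := (D k).cond (x i k) with hck
  have hcj0 : cj ≠ 0 := h0 j _
  have hck0 : ck ≠ 0 := h0 k _
  have e1 : Nat.gcd cj ck ∣ cj := Nat.gcd_dvd_left _ _
  have e2 : Nat.gcd cj ck ∣ ck := Nat.gcd_dvd_right _ _
  rw [Nat.gcd_comm] at g2
  have p1 : 0 < gap D T j (x i) := by
    rw [g1]
    exact Nat.div_pos (Nat.le_of_dvd (Nat.pos_of_ne_zero hcj0) e1)
      (Nat.gcd_pos_of_pos_left _ (Nat.pos_of_ne_zero hcj0))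
  have p2 : 0 < gap D T k (x i) := by
    rw [g2]
    exact Nat.div_pos (Nat.le_of_dvd (Nat.pos_of_ne_zero hck0) e2)
      (Nat.gcd_pos_of_pos_left _ (Nat.pos_of_ne_zero hcj0))
  refine hi4 j k ⟨gap D T j (x i), by omega⟩ ⟨gap D T k (x i), by omega⟩ hkj.symm p1 p2
    ⟨hkK.symm, ?_⟩
  show gap D T k (x i) * cj = gap D T j (x i) * ck
  rw [g1, g2]
  obtain ⟨u, hu⟩ := e1
  obtain ⟨v, hv⟩ := e2
  have hg0 : 0 < Nat.gcd cj ck := Nat.gcd_pos_of_pos_left _ (Nat.pos_of_ne_zero hcj0)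
  have q1 : cj / Nat.gcd cj ck = u := Nat.div_eq_of_eq_mul_right hg0 hu
  have q2 : ck / Nat.gcd cj ck = v := Nat.div_eq_of_eq_mul_right hg0 hv
  rw [q1, q2]
  calc v * cj = v * (Nat.gcd cj ck * u) := by rw [← hu]
    _ = u * (Nat.gcd cj ck * v) := by ring
    _ = u * ck := by rw [← hv]

end Pool.Agent.Q155.HK
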