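import Pool.Agent.Q155.HK.Tight
import Pool.Agent.Q155.HK.Index
import Pool.Agent.Q155.HK.Gap

/-!
# A coordinate with an unbounded gap can be dropped
-/

namespace Pool.Agent.Q155.HK

open Filter Topology MeasureTheory Pool.Agent.Q28.EQ

variable {G : Type} [Group G] {GF : Subgroup G} {n : ℕ} {C : Subgroup G}
  {Y : Fin n → CMCurve G GF} {Z : CMCurve G GF}

/-- the group which moves only the coordinate `j` -/
def mover (C : Subgroup G) (Y : Fin n → CMCurve G GF) (T : Finset (Fin n)) (x : Special Y)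
    (j : Fin n) (hj : j ∈ T) : Subgroup G :=
  moveOnly C (fun k : T => (Y k).K (x k)) (fun k : T => (Y k).H (x k)) ⟨j, hj⟩

lemma mover_le (T : Finset (Fin n)) (x : Special Y) (j : Fin n) (hj : j ∈ T) :
    mover C Y T x j hj ≤ C := fun _ hg => (mem_moveOnly.mp hg).1.1

lemma mover_le_K (T : Finset (Fin n)) (x : Special Y) (j : Fin n) (hj : j ∈ T) :
    mover C Y T x j hj ≤ (Y j).K (x j) := fun _ hg => (mem_moveOnly.mp hg).1.2 ⟨j, hj⟩

lemma mover_le_H (T : Finset (Fin n)) (x : Special Y) (j : Fin n) (hj : j ∈ T) (k : Fin n)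
    (hk : k ∈ T) (hkj : k ≠ j) : mover C Y T x j hj ≤ (Y k).H (x k) := fun _ hg =>
  (mem_moveOnly.mp hg).2 ⟨k, hk⟩ fun h => hkj (congrArg Subtype.val h)

lemma unshared_index (hF : ∀ j, CMFacts C (Y j)) (hCn : C.Normal) (hCi : C.index ≠ 0)
    (T : Finset (Fin n)) (x : Special Y) (j : Fin n) (hj : j ∈ T) (hns : ¬ Shared Y T j x) :
    (mover C Y T x j hj ⊔ (Y j).H (x j)).relIndex ((Y j).K (x j)) ≤
      torsion ((Y j).K (x j)) ((Y j).H (x j)) (2 ^ T.card) * (C.index * 2 ^ T.card) := by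
  have h1 := index_bound C hCn hCi (fun k : T => (Y k).K (x k)) (fun k : T => (Y k).H (x k))
    (fun k => (hF k).dihedral (x k)) ⟨j, hj⟩ ((hF j).finite_index (x j))
  rw [Fintype.card_coe] at h1
  have h2 : sameField (fun k : T => (Y k).K (x k)) (fun k : T => (Y k).H (x k)) ⟨j, hj⟩ =
      (Y j).K (x j) := by
    ext g
    rw [mem_sameField]
    refine ⟨fun hg => hg.1, fun hg => ⟨hg, fun k hk hkK => absurd ⟨k, k.2, ?_, hkK⟩ hns⟩⟩
    intro h
    exact hk (Subtype.ext h)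
  rw [h2] at h1
  have h3 : (Y j).K (x j) ⊔ (Y j).H (x j) = (Y j).K (x j) :=
    sup_eq_left.mpr ((hF j).dihedral (x j)).le
  simp only [h3, Subgroup.relIndex_self, mul_one] at h1
  exact h1

lemma shared_index (hF : ∀ j, CMFacts C (Y j)) (hCn : C.Normal) (hCi : C.index ≠ 0) {N : ℕ}
    {loc : Subgroup G → ℕ → ℕ → Subgroup G} {D : ∀ j, Descent Z (Y j)}
    (hD : ∀ j, HeckeFacts C N loc Z (Y j) (D j)) (T : Finset (Fin n)) (x : Special Y) (j : Fin n)
    (hj : j ∈ T) (p m : ℕ) (hp : p.Prime) (hm : 0 < m) (hpm : p ^ m ∣ (D j).cond (x j))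
    (hk : ∀ k ∈ T, k ≠ j → (Y k).K (x k) = (Y j).K (x j) →
      ((D k).cond (x k)).factorization p ≤ ((D j).cond (x j)).factorization p - m) :
    ((mover C Y T x j hj ⊓ upper loc (D j) p m (x j)) ⊔ (Y j).H (x j)).relIndex
      (upper loc (D j) p m (x j)) ≤
      torsion (upper loc (D j) p m (x j)) ((Y j).H (x j)) (2 ^ T.card) *
        (C.index * 2 ^ T.card) := by
  have hpN : ¬ p ∣ N := fun h => by
    have h1 := (hD j).coprime (x j)
    have h2 : p ∣ (D j).cond (x j) := (dvd_pow_self p hm.ne').trans hpm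
    exact hp.one_lt.ne' (Nat.dvd_one.mp (h1 ▸ Nat.dvd_gcd h2 h))
  have h1 := index_bound_upper C hCn hCi (fun k : T => (Y k).K (x k))
    (fun k : T => (Y k).H (x k)) (fun k => (hF k).dihedral (x k)) ⟨j, hj⟩
    ((hF j).finite_index (x j))
    (loc ((Y j).K (x j)) p (((D j).cond (x j)).factorization p - m))
    ((hD j).loc_le_K _ _ _ hp) fun k hkj hkK => ?_
  · rw [Fintype.card_coe] at h1
    exact h1
  · have hkj' : (k : Fin n) ≠ j := fun h => hkj (Subtype.ext h)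
    have hkK' : (Y k).K (x k) = (Y j).K (x j) := hkK
    show loc ((Y j).K (x j)) p (((D j).cond (x j)).factorization p - m) ≤ (Y k).H (x k)
    rw [← hkK']
    exact (hD k).loc_le_H (x k) p _ hp hpN (hk k k.2 hkj' hkK')

lemma orb_fin' (hF : ∀ j, CMFacts C (Y j)) (y : Special Y) (U : Subgroup G) :
    (orb GF U y).Finite := by
  refine orb_finite (⨅ j, (Y j).H (y j))
    (Subgroup.finiteIndex_iInf fun j => (hF j).finite_index (y j)) y (fun g hg => ?_) U
  rw [Subgroup.mem_iInf] at hg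
  funext j
  exact (hF j).fixed (y j) g (hg j)

/-- the estimate for one special point, for a group `U` which fixes the other coordinates -/
lemma peel_one (hF : ∀ j, CMFacts C (Y j)) (T : Finset (Fin n)) (x : Special Y) (j : Fin n)
    (U : Subgroup G) (hUH : ∀ k ∈ T, k ≠ j → U ≤ (Y k).H (x k)) (φ : ∀ j, (Y j).Y → ℝ)
    (c M ε : ℝ) (bad : Set (Special Y)) (hbad : avg (orb GF ⊤ x) (bad.indicator fun _ => 1) ≤ ε)
    (hgood : ∀ y ∈ orb GF ⊤ x, y ∉ bad →
      |avg (orb GF U (y j)) (fun p => φ j ((Y j).val p)) - c| ≤ ε)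
    (hM : 0 ≤ M) (hε : 0 ≤ ε)
    (b1 : ∀ y : Special Y, |∏ k ∈ T.erase j, φ k ((Y k).val (y k))| ≤ M)
    (b2 : ∀ y, |φ j y| ≤ M) (b3 : |c| ≤ M) (hj : j ∈ T) :
    |avg (orb GF ⊤ x) (fun y => ∏ k ∈ T, φ k ((Y k).val (y k))) -
      avg (orb GF ⊤ x) (fun y => ∏ k ∈ T.erase j, φ k ((Y k).val (y k))) * c| ≤
      M * ε + 2 * M * M * ε := by
  classical
  have hfin := orb_fin' hF x ⊤
  have e1 : (fun y : Special Y => ∏ k ∈ T, φ k ((Y k).val (y k))) =
      fun y => (∏ k ∈ T.erase j, φ k ((Y k).val (y k))) * φ j ((Y j).val (y j)) := by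
    funext y
    exact (Finset.prod_erase_mul T _ hj).symm
  rw [e1]
  refine avg_peel hfin ⟨x, self_mem_orb _ _⟩ (fun y => orb GF U y) ?_ ?_ ?_ _
    (fun y => φ j ((Y j).val (y j))) ?_ c M ε bad hbad ?_ hM hε b1 (fun y => b2 _) b3
  · rintro y ⟨g, -, rfl⟩ w ⟨k, -, rfl⟩
    exact ⟨k * g, Subgroup.mem_top _, mul_smul _ _ _⟩
  · intro y _
    exact self_mem_orb _ _
  · intro y _ w hw
    exact orb_eq hw
  · rintro y ⟨g, -, rfl⟩ w ⟨k, hk, rfl⟩
    refine Finset.prod_congr rfl fun l hl => ?_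
    obtain ⟨hlj, hlT⟩ := Finset.mem_erase.mp hl
    have h1 : (k • (g • x)) l = (g • x) l := by
      have h2 : (k : G) ∈ (Y l).H ((g • x) l) := by
        rw [Pi.smul_apply, (hF l).H_smul]
        exact hUH l hlT hlj hk
      exact (hF l).fixed _ k h2
    rw [h1]
  · intro y hy hyb
    have h1 := avg_proj (fun z : Special Y => z j) (fun g z => rfl) U y (orb_fin' hF y U)
      (fun p => φ j ((Y j).val p))
    rw [h1]
    exact hgood y hy hyb

end Pool.Agent.Q155.HK
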