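import Pool.Agent.Q155.HK.Peel

/-!
# A coordinate with an unbounded gap can be dropped: the limit
-/

namespace Pool.Agent.Q155.HK

open Filter Topology MeasureTheory Pool.Agent.Q28.EQ

variable {G : Type} [Group G] {GF : Subgroup G} {n : ℕ} {C : Subgroup G}
  {Y : Fin n → CMCurve G GF} {Z : CMCurve G GF}

/-- convergence for products of functions of the coordinates in `T` -/
def ProdOn (l : Filter ℕ) (Y : Fin n → CMCurve G GF) (T : Finset (Fin n)) (x : ℕ → Special Y) :
    Prop :=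
  ∀ φ : ∀ j, (Y j).Y → ℝ, (∀ j, Continuous (φ j) ∧ HasCompactSupport (φ j)) →
    Tendsto (fun i => avg (orb GF ⊤ (x i)) fun y => ∏ j ∈ T, φ j ((Y j).val (y j))) l
      (𝓝 (∏ j ∈ T, ∫ y, φ j y ∂(Y j).m))

lemma exists_bound (φ : ∀ j, (Y j).Y → ℝ) (hφ : ∀ j, Continuous (φ j) ∧ HasCompactSupport (φ j)) :
    ∃ M : ℝ, 1 ≤ M ∧ (∀ j y, |φ j y| ≤ M) ∧
      ∀ (T : Finset (Fin n)) (y : Special Y), |∏ k ∈ T, φ k ((Y k).val (y k))| ≤ M := by
  have h1 : ∀ j, ∃ A : ℝ, ∀ y, ‖φ j y‖ ≤ A := fun j =>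
    (hφ j).2.exists_bound_of_continuous (hφ j).1
  choose A hA using h1
  set M₀ : ℝ := 1 + ∑ j, |A j| with hM₀
  have h0 : 0 ≤ ∑ j, |A j| := Finset.sum_nonneg fun j _ => abs_nonneg _
  have h2 : ∀ j y, |φ j y| ≤ M₀ := by
    intro j y
    have e1 := hA j y
    rw [Real.norm_eq_abs] at e1
    have e2 : |A j| ≤ ∑ j, |A j| :=
      Finset.single_le_sum (f := fun j => |A j|) (fun j _ => abs_nonneg _) (Finset.mem_univ j)
    have e3 := le_abs_self (A j)
    linarith
  have h3 : 1 ≤ M₀ := by linarith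
  refine ⟨M₀ ^ (n + 1), one_le_pow₀ h3, fun j y => (h2 j y).trans (le_self_pow₀ h3 (by omega)),
    fun T y => ?_⟩
  rw [Finset.abs_prod]
  calc ∏ k ∈ T, |φ k ((Y k).val (y k))| ≤ ∏ _k ∈ T, M₀ :=
        Finset.prod_le_prod (fun k _ => abs_nonneg _) fun k _ => h2 k _
    _ = M₀ ^ T.card := by rw [Finset.prod_const]
    _ ≤ M₀ ^ (n + 1) := by
      refine pow_le_pow_right₀ h3 ?_
      have := Finset.card_le_univ T
      rw [Fintype.card_fin] at this
      omega

lemma exists_lcm (D : ∀ j, Descent Z (Y j)) (T : Finset (Fin n)) (j : Fin n) (x : Special Y)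
    (h0 : ∀ k, (D k).cond (x k) ≠ 0) : ∃ L : ℕ,
      gap D T j x = (D j).cond (x j) / Nat.gcd ((D j).cond (x j)) L ∧ L ≠ 0 ∧
      (∀ k ∈ T, k ≠ j → (Y k).K (x k) = (Y j).K (x j) → (D k).cond (x k) ∣ L) ∧
      ∀ m, (∀ k ∈ T, k ≠ j → (Y k).K (x k) = (Y j).K (x j) → (D k).cond (x k) ∣ m) → L ∣ m := by
  classical
  refine ⟨_, rfl, ?_, fun k hk hkj hkK => Finset.dvd_lcm (Finset.mem_filter.mpr ⟨hk, hkj, hkK⟩),
    fun m hm => Finset.lcm_dvd fun k hk => ?_⟩
  · rw [Ne, Finset.lcm_eq_zero_iff]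
    rintro ⟨k, -, hk⟩
    exact h0 k hk
  · obtain ⟨h1, h2, h3⟩ := Finset.mem_filter.mp hk
    exact hm k h1 h2 h3

/-- **The peeling lemma.** -/
lemma peel (hF : ∀ j, CMFacts C (Y j)) (hZ : CMFacts C Z) (hCn : C.Normal) (hCi : C.index ≠ 0)
    {N : ℕ} {loc : Subgroup G → ℕ → ℕ → Subgroup G} {D : ∀ j, Descent Z (Y j)}
    (hD : ∀ j, HeckeFacts C N loc Z (Y j) (D j)) (l : Filter ℕ) (x : ℕ → Special Y)
    (T : Finset (Fin n)) (j : Fin n) (hj : j ∈ T)
    (hx : ∀ B, ∀ᶠ i in l, B ≤ (Y j).disc (x i j))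
    (hgap : ∀ B, ∀ᶠ i in l, Shared Y T j (x i) → B ≤ gap D T j (x i))
    (hrest : ProdOn l Y (T.erase j) x) : ProdOn l Y T x := by
  classical
  intro φ hφ
  obtain ⟨M, hM1, hM2, hM3⟩ := exists_bound φ hφ
  have hM0 : 0 ≤ M := by linarith
  set c := ∫ y, φ j y ∂(Y j).m with hc
  have hcM : |c| ≤ M := by
    rw [← Real.norm_eq_abs, hc]
    refine (norm_integral_le_of_norm_le_const (C := M)
      (Filter.Eventually.of_forall fun y => ?_)).trans ?_
    · rw [Real.norm_eq_abs]; exact hM2 j y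
    · simp
  have hlim : ∏ k ∈ T, ∫ y, φ k y ∂(Y k).m = (∏ k ∈ T.erase j, ∫ y, φ k y ∂(Y k).m) * c :=
    (Finset.prod_erase_mul T _ hj).symm
  rw [hlim]
  have hmain := (hrest φ hφ).mul_const c
  -- it remains to compare the two averages
  have hdiff : Tendsto (fun i => avg (orb GF ⊤ (x i)) (fun y => ∏ k ∈ T, φ k ((Y k).val (y k))) -
      avg (orb GF ⊤ (x i)) (fun y => ∏ k ∈ T.erase j, φ k ((Y k).val (y k))) * c) l (𝓝 0) := by
    rw [Metric.tendsto_nhds]
    intro δ hδ
    set W : ℝ := M + 2 * M * M with hW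
    have hW0 : 0 < W := by positivity
    set ε : ℝ := δ / (2 * W) with hε
    have hε0 : 0 < ε := by positivity
    have hεW : M * ε + 2 * M * M * ε < δ := by
      have : M * ε + 2 * M * M * ε = δ / 2 := by
        rw [hε, hW]
        field_simp
      linarith
    obtain ⟨Ω, hΩ, hΩ2⟩ := tight hCi hZ ε hε0
    obtain ⟨η, hη, hduke⟩ := (hF j).duke
    obtain ⟨B₁, hB₁⟩ := hduke (φ j) (hφ j).1 (hφ j).2 ε hε0
    obtain ⟨B₂, hB₂⟩ := (hF j).genus T.card (η / 2) (by positivity)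
    obtain ⟨B₃, hB₃⟩ : ∃ B' : ℕ, ∀ m : ℕ, B' ≤ m →
        ((C.index * 2 ^ T.card : ℕ) : ℝ) ≤ (m : ℝ) ^ (η / 2) := by
      have h1 : Tendsto (fun m : ℕ => (m : ℝ) ^ (η / 2)) atTop atTop :=
        (tendsto_rpow_atTop (by positivity)).comp tendsto_natCast_atTop_atTop
      exact eventually_atTop.mp (h1.eventually_ge_atTop _)
    obtain ⟨Bt, hBt⟩ := (hD j).torsion T.card
    obtain ⟨Q, hQ⟩ := (hD j).hecke (φ j) (hφ j).1 (hφ j).2 Ω hΩ (Bt * (C.index * 2 ^ T.card)) ε hε0
    filter_upwards [hx (B₁ + B₂ + B₃ + 1), hgap (Q ^ Q + 1)] with i hi hgi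
    rw [Real.dist_eq, sub_zero]
    refine lt_of_le_of_lt ?_ hεW
    have hconj : ∀ y ∈ orb GF ⊤ (x i), ∀ k, (Y k).K (y k) = (Y k).K (x i k) ∧
        (Y k).H (y k) = (Y k).H (x i k) ∧ (Y k).disc (y k) = (Y k).disc (x i k) := by
      rintro y ⟨g, -, rfl⟩ k
      exact ⟨(hF k).K_smul g _, (hF k).H_smul g _, (hF k).disc_smul g _⟩
    set Mv := mover C Y T (x i) j hj with hMv
    by_cases hs : Shared Y T j (x i)
    · -- Hecke orbits
      set cj := (D j).cond (x i j) with hcj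
      obtain ⟨Lc, hLc, hLc0, hLcd, -⟩ := exists_lcm D T j (x i) fun k => (hD k).cond_ne_zero _
      have hg1 : Q ^ Q < cj / Nat.gcd cj Lc := by
        have := hgi hs
        rw [hLc] at this
        exact Nat.lt_of_succ_le this
      obtain ⟨p, m, hp, hm, hQp, hpm, hLm⟩ :=
        exists_prime_power_gap Q cj Lc ((hD j).cond_ne_zero _) hLc0 hg1
      set L := upper loc (D j) p m (x i j) with hL
      set U := Mv ⊓ L with hU
      have hidx : (U ⊔ (Y j).H (x i j)).relIndex L ≤ Bt * (C.index * 2 ^ T.card) := by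
        refine (shared_index hF hCn hCi hD T (x i) j hj p m hp hm hpm fun k hkT hkj hkK => ?_).trans
          (Nat.mul_le_mul_right _ (hBt _ p m hp hpm))
        have h1 : (D k).cond (x i k) ∣ Lc := hLcd k hkT hkj hkK
        have h2 := (Nat.factorization_le_iff_dvd ((hD k).cond_ne_zero _) hLc0).mpr h1 p
        have h3 : ((D j).cond (x i j)).factorization p = cj.factorization p := rfl
        omega
      refine peel_one hF T (x i) j U (fun k hkT hkj => inf_le_left.trans
        (mover_le_H T (x i) j hj k hkT hkj)) φ c M ε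
        {y | Z.val ((D j).low (p ^ m) (y j)) ∉ Ω} ?_ ?_ hM0 hε0.le (hM3 _) (hM2 j) hcM hj
      · have h1 := avg_proj (fun z : Special Y => (D j).low (p ^ m) (z j))
          (fun g z => (hD j).low_smul _ g _) ⊤ (x i) (orb_fin' hF (x i) ⊤)
          (fun p => Ωᶜ.indicator (fun _ => (1 : ℝ)) (Z.val p))
        have h2 := hΩ2 ((D j).low (p ^ m) (x i j))
        rw [← h1] at h2
        refine le_trans (le_of_eq ?_) h2
        refine avg_congr (orb_fin' hF (x i) ⊤) fun y _ => ?_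
        by_cases hy : Z.val ((D j).low (p ^ m) (y j)) ∈ Ω
        · have a1 : y ∉ {y : Special Y | Z.val ((D j).low (p ^ m) (y j)) ∉ Ω} := fun h => h hy
          have a2 : Z.val ((D j).low (p ^ m) (y j)) ∉ Ωᶜ := fun h => h hy
          rw [Set.indicator_of_notMem a1, Set.indicator_of_notMem a2]
        · have a1 : y ∈ {y : Special Y | Z.val ((D j).low (p ^ m) (y j)) ∉ Ω} := hy
          have a2 : Z.val ((D j).low (p ^ m) (y j)) ∈ Ωᶜ := hy
          rw [Set.indicator_of_mem a1, Set.indicator_of_mem a2]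
      · intro y hy hyb
        have hyΩ : Z.val ((D j).low (p ^ m) (y j)) ∈ Ω := not_not.mp hyb
        obtain ⟨c1, c2, c3⟩ := hconj y hy j
        have c4 : (D j).cond (y j) = (D j).cond (x i j) := by
          obtain ⟨g, -, rfl⟩ := hy
          exact (hD j).cond_smul g _
        have c5 : upper loc (D j) p m (y j) = L := by
          rw [hL]; unfold upper
          rw [c1, c2, c4]
        refine hQ (y j) p m hp (by rw [c4]; exact hpm) hQp hyΩ U
          (inf_le_left.trans (mover_le T (x i) j hj)) (by rw [c5]; exact inf_le_right) ?_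
        rw [c5, c2]
        exact hidx
    · -- the CM field of the coordinate `j` is different from the others
      refine peel_one hF T (x i) j Mv (fun k hkT hkj => mover_le_H T (x i) j hj k hkT hkj) φ c M ε
        ∅ ?_ ?_ hM0 hε0.le (hM3 _) (hM2 j) hcM hj
      · rw [Set.indicator_empty']
        rw [show avg (orb GF ⊤ (x i)) (0 : Special Y → ℝ) = 0 from
          avg_const (orb_fin' hF (x i) ⊤) ⟨x i, self_mem_orb _ _⟩ 0]
        exact hε0.le
      · intro y hy _
        obtain ⟨c1, c2, c3⟩ := hconj y hy j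
        refine hB₁ (y j) (by rw [c3]; omega) Mv (mover_le T (x i) j hj)
          (by rw [c1]; exact mover_le_K T (x i) j hj) ?_
        rw [c1, c2, c3]
        have h1 := unshared_index hF hCn hCi T (x i) j hj hs
        have hd0 : (0 : ℝ) < ((Y j).disc (x i j) : ℝ) := by
          have : 0 < (Y j).disc (x i j) := by omega
          exact_mod_cast this
        calc ((Mv ⊔ (Y j).H (x i j)).relIndex ((Y j).K (x i j)) : ℝ)
            ≤ (torsion ((Y j).K (x i j)) ((Y j).H (x i j)) (2 ^ T.card) : ℝ) *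
              ((C.index * 2 ^ T.card : ℕ) : ℝ) := by exact_mod_cast h1
          _ ≤ ((Y j).disc (x i j) : ℝ) ^ (η / 2) * ((Y j).disc (x i j) : ℝ) ^ (η / 2) := by
            refine mul_le_mul (hB₂ _ (by omega)) (hB₃ _ (by omega)) (by positivity) (by positivity)
          _ = ((Y j).disc (x i j) : ℝ) ^ η := by
            rw [← Real.rpow_add hd0]
            congr 1; ring
  have := hdiff.add hmain
  simpa using this

end Pool.Agent.Q155.HK
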