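import Pool.Agent.Q155.HK.Avg

/-!
# The Galois orbits of the CM points of one modular curve are tight
-/

namespace Pool.Agent.Q155.HK

open Filter Topology MeasureTheory Pool.Agent.Q28.EQ

variable {G : Type} [Group G] {GF : Subgroup G}

lemma orb_fin_one {C : Subgroup G} {Z : CMCurve G GF} (hZ : CMFacts C Z) (z : Z.P)
    (U : Subgroup G) : (orb GF U z).Finite :=
  orb_finite _ (hZ.finite_index z) z (hZ.fixed z) U

/-- a continuous function with compact support and mean value near one -/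
lemma exists_bump (Z : CMCurve G GF) (ε : ℝ) (hε : 0 < ε) : ∃ χ : Z.Y → ℝ, Continuous χ ∧
    HasCompactSupport χ ∧ (∀ y, 0 ≤ χ y ∧ χ y ≤ 1) ∧ 1 - ε ≤ ∫ y, χ y ∂Z.m := by
  have e := CompactExhaustion.choice Z.Y
  have h1 : Tendsto (fun n => Z.m (e n)) atTop (𝓝 (Z.m (⋃ n, e n))) :=
    tendsto_measure_iUnion_atTop fun _ _ h => e.subset h
  rw [e.iUnion_eq, measure_univ] at h1
  have h2 : ∀ᶠ n in atTop, ENNReal.ofReal (1 - ε) < Z.m (e n) := by
    refine h1.eventually (lt_mem_nhds ?_)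
    rw [ENNReal.ofReal_lt_one]
    linarith
  obtain ⟨n, hn⟩ := h2.exists
  obtain ⟨χ, c1, -, c3, c4⟩ := exists_continuous_one_zero_of_isCompact (e.isCompact n)
    isClosed_empty (Set.disjoint_empty _)
  refine ⟨χ, χ.continuous, c3, fun y => c4 y, ?_⟩
  have hint : Integrable (fun y => χ y) Z.m := χ.continuous.integrable_of_hasCompactSupport c3
  have h3 : (Z.m (e n)).toReal ≤ ∫ y, χ y ∂Z.m := by
    have e1 : ∫ y, (e n : Set Z.Y).indicator (fun _ => (1 : ℝ)) y ∂Z.m = (Z.m (e n)).toReal := by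
      rw [integral_indicator_const _ (e.isCompact n).measurableSet, smul_eq_mul, mul_one]
      rfl
    rw [← e1]
    refine integral_mono ((integrable_const 1).indicator (e.isCompact n).measurableSet) hint
      fun y => ?_
    by_cases hy : y ∈ (e n : Set Z.Y)
    · rw [Set.indicator_of_mem hy]
      exact (c1 hy).ge
    · rw [Set.indicator_of_notMem hy]
      exact (c4 y).1
  refine le_trans ?_ h3
  have h4 : (Z.m (e n)) ≠ ⊤ := measure_ne_top _ _
  rw [← ENNReal.ofReal_le_iff_le_toReal h4]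
  exact hn.le

lemma tight {C : Subgroup G} {Z : CMCurve G GF} (hCi : C.index ≠ 0) (hZ : CMFacts C Z) (ε : ℝ)
    (hε : 0 < ε) : ∃ Ω : Set Z.Y, IsCompact Ω ∧ ∀ z : Z.P,
      avg (orb GF ⊤ z) (fun y => Ωᶜ.indicator (fun _ => 1) (Z.val y)) ≤ ε := by
  obtain ⟨χ, c1, c2, c3, c4⟩ := exists_bump Z (ε / 2) (half_pos hε)
  obtain ⟨η, hη, hduke⟩ := hZ.duke
  obtain ⟨B, hB⟩ := hduke χ c1 c2 (ε / 2) (half_pos hε)
  obtain ⟨B', hB'⟩ : ∃ B' : ℕ, ∀ m : ℕ, B' ≤ m → ((C.index : ℕ) : ℝ) ≤ (m : ℝ) ^ η := by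
    have h1 : Tendsto (fun m : ℕ => (m : ℝ) ^ η) atTop atTop :=
      (tendsto_rpow_atTop hη).comp tendsto_natCast_atTop_atTop
    exact eventually_atTop.mp (h1.eventually_ge_atTop _)
  set S : Set Z.P := {x | Z.disc x ≤ B + B'} with hS
  have hSf : S.Finite := hZ.finite_disc _
  refine ⟨tsupport χ ∪ Z.val '' S, c2.isCompact.union (hSf.image _).isCompact, fun z => ?_⟩
  have hfin := orb_fin_one hZ z ⊤
  have hdisc : ∀ y ∈ orb GF ⊤ z, Z.disc y = Z.disc z ∧ Z.K y = Z.K z ∧ Z.H y = Z.H z := by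
    rintro y ⟨g, -, rfl⟩
    exact ⟨hZ.disc_smul g z, hZ.K_smul g z, hZ.H_smul g z⟩
  by_cases hz : z ∈ S
  · have h1 : avg (orb GF ⊤ z) (fun y => (tsupport χ ∪ Z.val '' S)ᶜ.indicator (fun _ => (1:ℝ)) (Z.val y)) =
        avg (orb GF ⊤ z) (fun _ => 0) := by
      refine avg_congr hfin fun y hy => ?_
      have hyS : y ∈ S := by
        rw [hS, Set.mem_ofPred, (hdisc y hy).1]
        exact hz
      have hnot : Z.val y ∉ (tsupport χ ∪ Z.val '' S)ᶜ := fun h => h (Or.inr ⟨y, hyS, rfl⟩)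
      exact Set.indicator_of_notMem hnot _
    rw [h1, avg_const hfin ⟨z, self_mem_orb _ _⟩]
    exact hε.le
  · have hzd : B + B' < Z.disc z := not_le.mp hz
    set U : Subgroup G := C ⊓ Z.K z with hU
    have hidx : ((U ⊔ Z.H z).relIndex (Z.K z) : ℝ) ≤ (Z.disc z : ℝ) ^ η := by
      refine le_trans ?_ (hB' _ (by omega))
      have h2 : U.relIndex (Z.K z) ≠ 0 := by
        rw [hU, Subgroup.inf_relIndex_right]
        intro h0
        exact hCi (Subgroup.index_eq_zero_of_relIndex_eq_zero h0)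
      have h3 : (U ⊔ Z.H z).relIndex (Z.K z) ≤ U.relIndex (Z.K z) :=
        Subgroup.relIndex_le_of_le_left le_sup_left h2
      have h4 : U.relIndex (Z.K z) ≤ C.index := by
        rw [hU, Subgroup.inf_relIndex_right]
        calc C.relIndex (Z.K z) ≤ C.relIndex ⊤ :=
              Subgroup.relIndex_le_of_le_right le_top (by rwa [Subgroup.relIndex_top_right])
          _ = C.index := Subgroup.relIndex_top_right C
      exact_mod_cast h3.trans h4
    have hcl : |avg (orb GF ⊤ z) (fun y => χ (Z.val y)) - ∫ y, χ y ∂Z.m| ≤ ε / 2 := by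
      refine avg_partition hfin ⟨z, self_mem_orb _ _⟩ (fun y => orb GF U y) ?_ ?_ ?_ _ _ _ ?_
      · rintro y ⟨g, -, rfl⟩ w ⟨k, -, rfl⟩
        exact ⟨k * g, Subgroup.mem_top _, mul_smul _ _ _⟩
      · intro y _
        exact self_mem_orb _ _
      · intro y _ w hw
        exact orb_eq hw
      · intro y hy
        obtain ⟨d1, d2, d3⟩ := hdisc y hy
        refine hB y (by rw [d1]; omega) U inf_le_left (by rw [d2]; exact inf_le_right) ?_
        rw [d1, d2, d3]
        exact hidx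
    have h5 : 1 - ε ≤ avg (orb GF ⊤ z) (fun y => χ (Z.val y)) := by
      rw [abs_le] at hcl
      linarith [hcl.1]
    have h6 : avg (orb GF ⊤ z) (fun y => (tsupport χ ∪ Z.val '' S)ᶜ.indicator (fun _ => (1:ℝ)) (Z.val y)) ≤
        avg (orb GF ⊤ z) (fun y => 1 - χ (Z.val y)) := by
      refine avg_mono hfin fun y _ => ?_
      by_cases h : Z.val y ∈ (tsupport χ ∪ Z.val '' S)ᶜ
      · have : χ (Z.val y) = 0 := by
          by_contra hne
          exact h (Or.inl (subset_tsupport _ hne))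
        rw [Set.indicator_of_mem h, this]; norm_num
      · rw [Set.indicator_of_notMem h]
        linarith [(c3 (Z.val y)).2]
    rw [avg_sub hfin, avg_const hfin ⟨z, self_mem_orb _ _⟩] at h6
    linarith

end Pool.Agent.Q155.HK
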